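import Pool.Agent.H18.HIT.Targets
import Pool.Agent.H8.HZ.GRW

/-!
# Rows HF1 GR0 NUM GRW
-/

open MvPolynomial
open Pool.Agent.H12.ZD (pmap v O Res DenseOrbit NoInv)
open Pool.Agent.H18.HIT

namespace Pool.Agent.H8.HIT

theorem Hf_eq {N : ℕ} {k : Type} [Field k] (I : Ideal (Po N k)) (t : ℕ) :
    Pool.Agent.H8.HZ.Hf I t = Pool.Agent.H18.HIT.Hf I t := rfl

theorem pf_HF1 : T_HF1 := by
  intro N k _ I S hS hS0
  rcases N with _ | n
  · have h1 : I = ⊤ := by
      apply Ideal.eq_top_of_isUnit_mem I hS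
      obtain ⟨c, hc⟩ : ∃ c : k, S = C c := ⟨S.coeff 0, by
        ext m
        rw [Subsingleton.elim m 0, coeff_C, if_pos rfl]⟩
      rw [hc]
      apply IsUnit.map C
      rw [isUnit_iff_ne_zero]
      rintro rfl
      rw [C_0] at hc
      exact hS0 hc
    refine ⟨0, fun t => ?_⟩
    have h2 : Subsingleton (Po 0 k ⧸ I) := Ideal.Quotient.subsingleton_iff.mpr h1
    rw [zero_mul, Nat.le_zero, Hf]
    exact Module.finrank_zero_of_subsingleton
  · refine ⟨S.totalDegree, fun t => ?_⟩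
    rw [Nat.add_sub_cancel]
    exact Pool.Agent.H8.HZ.Hf_upper I hS0 hS t

theorem pf_GR0 : T_GR0 := by
  intro N k _ I G θ E _ hstar t
  exact Pool.Agent.H8.HZ.Hf_lower I G θ
    (fun g => totalDegree_aeval_le G (deg G) (totalDegree_le_deg G) g)
    (Nat.mul_le_mul_right _ (Nat.sub_le E 1)) hstar t

theorem pf_NUM : T_NUM := by
  intro h E D s B m hDE hD hlow hup
  by_contra hne
  have h0 : 1 ≤ h 0 := Nat.one_le_iff_ne_zero.mpr hne
  have h1 : ∀ j : ℕ, ∃ t : ℕ, t ≤ s * j * D ^ j ∧ E ^ j ≤ h t := by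
    intro j
    induction j with
    | zero => exact ⟨0, Nat.zero_le _, by rw [pow_zero]; exact h0⟩
    | succ j ih =>
      obtain ⟨t, ht, hE⟩ := ih
      refine ⟨s + D * t, ?_, ?_⟩
      · have h2 : D * t ≤ s * j * D ^ (j + 1) := by
          calc D * t ≤ D * (s * j * D ^ j) := Nat.mul_le_mul_left _ ht
            _ = s * j * D ^ (j + 1) := by ring
        have h3 : s ≤ s * D ^ (j + 1) := Nat.le_mul_of_pos_right _ (pow_pos hD _)
        calc s + D * t ≤ s * D ^ (j + 1) + s * j * D ^ (j + 1) := Nat.add_le_add h3 h2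
          _ = s * (j + 1) * D ^ (j + 1) := by ring
      · calc E ^ (j + 1) = E * E ^ j := pow_succ' E j
          _ ≤ E * h t := Nat.mul_le_mul_left _ hE
          _ ≤ h (s + D * t) := hlow t
  apply Pool.Agent.H8.HZ.not_growth (A := D ^ m) (E := E) (δ := B) (s := s) (n := m)
    (Nat.one_le_pow _ _ hD) hDE
  intro j
  obtain ⟨t, ht, hE⟩ := h1 j
  refine hE.trans ((hup t).trans (Nat.mul_le_mul_left _ ?_))
  calc (t + 1) ^ m ≤ ((s * j + 1) * D ^ j) ^ m := by
        apply Nat.pow_le_pow_left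
        have : 1 ≤ D ^ j := Nat.one_le_pow _ _ hD
        nlinarith
    _ = (s * j + 1) ^ m * (D ^ m) ^ j := by
        rw [mul_pow]
        congr 1
        rw [← pow_mul, ← pow_mul, mul_comm]

theorem pf_GRW : T_GRW := by
  intro N k _ I G θ E B m h1 hG hGE hst hstar hup
  have h2 := pf_NUM (Hf I) E (deg G) (E * θ.totalDegree) B m hGE hG
    (fun t => pf_GR0 N k I G θ E hst hstar t) hup
  have h3 : I ≠ ⊤ := fun h => h1 ((Ideal.eq_top_iff_one I).mp h)
  have h4 := Pool.Agent.H8.HZ.Hf_zero_pos h3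
  rw [Hf_eq, h2] at h4
  exact absurd h4 (by norm_num)

end Pool.Agent.H8.HIT
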