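import Pool.Agent.H8.HIT.P1
import Pool.Agent.H8.HIT.P2

/-!
# The common part of the theorems A and B
-/

open MvPolynomial IsLocalRing
open Pool.Agent.H12.ZD (pmap v O Res DenseOrbit NoInv)
open Pool.Agent.H18.HIT

namespace Pool.Agent.H8.HIT

/-- the parametrization of the small disc -/
noncomputable def lam {N : ℕ} (p : Nat.Primes) (a : Fin N → O p) (z : Fin N → Qb) : Fin N → Qb :=
  fun i => (a i : Qb) + ((p : ℕ) : Qb) ^ 2 * z i

theorem cov_pos_inj {N : ℕ} {k : Type} [Field k] [Infinite k] {f : Tup N k} {e : ℕ} (he : 1 ≤ e)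
    (h : Cov f e) : Function.Injective (aeval f : Po N k →ₐ[k] Po N k) := by
  rw [inj_iff]
  exact fun q hq => Pool.Agent.H8.HZ.Cov.inj ((cov_iff f e).mpr h) he hq

theorem setup {N : ℕ} (f : Tup N Qb) (b : Po N Qb) (e : ℕ) (he : 1 ≤ e) (hcov : Cov f e)
    (hb : b ≠ 0) : ∃ (p : Nat.Primes) (k : ℕ) (a : Fin N → O p) (H : Tup N (O p)),
      3 ≤ (p : ℕ) ∧ 1 ≤ k ∧ Cov (flQ p H) (e ^ k) ∧
      Function.Injective (aeval (flQ p H) : Po N Qb →ₐ[Qb] Po N Qb) ∧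
      deg (flQ p H) ≤ deg f ^ k ∧
      (∀ z, (pmap f)^[k] (lam p a z) = lam p a (pmap (flQ p H) z)) ∧
      (∀ (n : ℕ) (z : Fin N → O p), eval ((pmap f)^[n] (lam p a (cO z))) b ≠ 0) := by
  have hinj := cov_pos_inj he hcov
  have hjac : Pool.Agent.H8.HZ.jac f ≠ 0 := pf_JAC N Qb f hinj
  obtain ⟨M, hM⟩ := Pool.Agent.H8.HZ.exists_flow f hjac b hb (totalDegree_le_deg f)
  obtain ⟨q, hq1, hq2⟩ := Nat.exists_infinite_primes (max M 3 + 1)
  have h1 : M < q := lt_of_le_of_lt (le_max_left M 3) hq1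
  have h2 : 3 < q := lt_of_le_of_lt (le_max_right M 3) hq1
  obtain ⟨k, a, H, hk, hdeg, hconj, hav⟩ := hM ⟨q, hq2⟩ h1
  have hcovG : Cov (flQ ⟨q, hq2⟩ H) (e ^ k) := by
    rw [← cov_iff]
    have h3 := Pool.Agent.H8.HZ.Cov.itr ((cov_iff f e).mpr hcov) he k
    have h4 : (((⟨q, hq2⟩ : Nat.Primes) : ℕ) : Qb) ^ 2 ≠ 0 :=
      pow_ne_zero 2 (Nat.cast_ne_zero.mpr hq2.ne_zero)
    apply h3.conj (a := fun i => (a i : Qb)) h4
    intro z
    rw [Pool.Agent.H8.HZ.pmap_itr]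
    exact hconj z
  exact ⟨⟨q, hq2⟩, k, a, H, h2.le, hk, hcovG, cov_pos_inj (Nat.one_le_pow _ _ he) hcovG,
    deg_le hdeg, hconj, hav⟩

/-- the jacobian of a map which is the identity modulo `p` is a unit at integral points -/
theorem jac_fl_ne {N : ℕ} (p : Nat.Primes) (H : Tup N (O p)) (w : Fin N → O p) :
    eval (cO w) (jac (flQ p H)) ≠ 0 := by
  classical
  have h1 : jac (flQ p H) = map (O p).subtype (jac (fl p H)) :=
    Pool.Agent.H8.HZ.jac_map (O p).subtype (fl p H)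
  rw [h1, eval_cO]
  intro h2
  have h3 : eval w (jac (fl p H)) = 0 := by
    apply Subtype.ext
    exact h2
  have h4 : map (residue (O p)) (jac (fl p H)) = 1 := by
    have h5 := Pool.Agent.H8.HZ.jac_map (residue (O p)) (fl p H)
    have h6 : (fun i => map (residue (O p)) (fl p H i)) = fun i => X i := by
      funext i
      rw [fl, map_add, map_mul, map_X, map_C, map_natCast, Pool.Agent.H12.ZD.res_cast, C_0,
        zero_mul, add_zero]
    have h7 : Pool.Agent.H8.HZ.jac (fun i => (X i : Po N (Res p))) = 1 := by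
      have h8 : Pool.Agent.H8.HZ.jm (fun i => (X i : Po N (Res p))) = 1 := by
        ext1 i j
        rw [Pool.Agent.H8.HZ.jm, Matrix.of_apply, pderiv_X, Pi.single_apply, Matrix.one_apply]
      rw [Pool.Agent.H8.HZ.jac, h8, Matrix.det_one]
    rw [h6, h7] at h5
    exact h5.symm
  have h5 := congrArg (eval fun i => residue (O p) (w i)) h4
  rw [Pool.Agent.H8.HZ.eval_map_apply, h3, map_zero, map_one] at h5
  exact zero_ne_one h5

theorem cO_intCast {N : ℕ} (p : Nat.Primes) (z : Fin N → ℤ) :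
    cO (fun i => ((z i : ℤ) : O p)) = cZ z := by
  funext i
  exact map_intCast (O p).subtype (z i)

theorem core (hINC : T_INC) (hPEL : T_PEL) (hHIT : T_HIT) (hPRE : T_PRE) (hSTR : T_STR) {N : ℕ}
    (p : Nat.Primes) (hp : 3 ≤ (p : ℕ)) (H : Tup N (O p)) (E : ℕ) (c : Po N Qb) (hc : c ≠ 0)
    (hinj : Function.Injective (aeval (flQ p H) : Po N Qb →ₐ[Qb] Po N Qb))
    (hcov : Cov (flQ p H) E) :
    ∃ (z P : Fin N → O p) (θ : Po N Qb), eval (cO z) c ≠ 0 ∧ pmap (fl p H) P = z ∧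
      (∀ q ∈ van (flQ p H) (cO z), eval (cO P) q = 0) ∧
      (∀ P' : Fin N → Qb, pmap (flQ p H) P' = cO z → ∃ σ : Qb ≃+* Qb,
        (∀ i, map (σ : Qb →+* Qb) (flQ p H i) = flQ p H i) ∧ (∀ i, σ (cO z i) = cO z i) ∧
        ∀ i, σ (cO P i) = P' i) ∧
      (∀ g : Fin E → Po N Qb, (∑ i : Fin E, θ ^ (i : ℕ) * aeval (flQ p H) (g i)) ∈
        van (flQ p H) (cO z) → ∀ i, g i ∈ van (flQ p H) (cO z)) := by
  obtain ⟨θ₀, Φ, Δ, R, hprim⟩ := hPEL N Qb (flQ p H) hinj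
  obtain ⟨cG, hcG0, hcG⟩ := hcov
  obtain ⟨z₀, hz₀, hgal⟩ := hHIT N (flQ p H) (c * (Δ * cG)) hinj
    (mul_ne_zero hc (mul_ne_zero hprim.ne hcG0))
  set z : Fin N → O p := fun i => ((z₀ i : ℤ) : O p) with hz
  have hzc : cO z = cZ z₀ := cO_intCast p z₀
  rw [map_mul, map_mul, ← hzc] at hz₀
  obtain ⟨P, hP, hPvan⟩ := hPRE N p H z θ₀ Φ Δ R hp hprim
    (left_ne_zero_of_mul (right_ne_zero_of_mul hz₀))
  obtain ⟨S, hS, hS'⟩ := hcG (cO z) (right_ne_zero_of_mul (right_ne_zero_of_mul hz₀))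
  have hPG : pmap (flQ p H) (cO P) = cO z := by
    rw [← hP]
    exact pmap_cO (fl p H) P
  have hgal' : ∀ P' : Fin N → Qb, pmap (flQ p H) P' = cO z → ∃ σ : Qb ≃+* Qb,
        (∀ i, map (σ : Qb →+* Qb) (flQ p H i) = flQ p H i) ∧ (∀ i, σ (cO z i) = cO z i) ∧
        ∀ i, σ (cO P i) = P' i := by
    intro P' hP'
    obtain ⟨σ, hσ1, hσ2⟩ := hgal (cO P) P' (by rw [← hzc]; exact hPG) (by rw [← hzc]; exact hP')
    refine ⟨σ, hσ1, fun i => ?_, hσ2⟩
    rw [hzc]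
    exact map_intCast σ (z₀ i)
  subst hS
  obtain ⟨θ, hθ⟩ := hSTR N Qb (flQ p H) (cO z) (cO P) S hPG
    (fun n => by rw [flQ_iterate]; exact jac_fl_ne p H _) (jac_fl_ne p H P) hPvan
    (fun h q hhq hh => hINC N p H z h q hp hhq hh) (fun P' hP' => hgal' P' (hS' P' hP'))
  exact ⟨z, P, θ, left_ne_zero_of_mul hz₀, hP, hPvan, hgal', hθ⟩

/-- a dense orbit of `G` gives a dense orbit of `f` -/
theorem dense_of_conj {N : ℕ} (f : Tup N Qb) (p : Nat.Primes) (k : ℕ) (a : Fin N → O p)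
    (H : Tup N (O p)) (hconj : ∀ z, (pmap f)^[k] (lam p a z) = lam p a (pmap (flQ p H) z))
    (z : Fin N → Qb) (hdense : van (flQ p H) z = ⊥) : DenseOrbit f (lam p a z) := by
  intro h hh
  have hp0 : ((p : ℕ) : Qb) ^ 2 ≠ 0 := pow_ne_zero 2 (Nat.cast_ne_zero.mpr p.2.ne_zero)
  have h1 : ∀ y : Fin N → Qb, eval y (aeval (fun i => (C (a i : Qb) +
      C (((p : ℕ) : Qb) ^ 2) * X i : Po N Qb)) h) = eval (lam p a y) h := by
    intro y
    rw [Pool.Agent.H18.HIT.eval_aeval]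
    congr 2
    funext i
    simp [pmap, lam]
  have h2 : ∀ n, (pmap f)^[k * n] (lam p a z) = lam p a ((pmap (flQ p H))^[n] z) := by
    intro n
    induction n with
    | zero => rfl
    | succ n ih =>
      rw [Nat.mul_succ, Nat.add_comm, Function.iterate_add_apply, ih, hconj,
        Function.iterate_succ_apply']
  have h3 : aeval (fun i => (C (a i : Qb) + C (((p : ℕ) : Qb) ^ 2) * X i : Po N Qb)) h ∈
      van (flQ p H) z := by
    intro n
    rw [h1, ← h2]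
    exact hh _
  rw [hdense, Ideal.mem_bot] at h3
  apply MvPolynomial.funext
  intro y
  have h4 := h1 (fun i => (y i - (a i : Qb)) / ((p : ℕ) : Qb) ^ 2)
  rw [h3, map_zero] at h4
  have h5 : lam p a (fun i => (y i - (a i : Qb)) / ((p : ℕ) : Qb) ^ 2) = y := by
    funext i
    rw [lam, mul_div_cancel₀ _ hp0]
    ring
  rw [h5] at h4
  rw [← h4, map_zero]

/-- an injective tuple in at least one variable has positive degree -/
theorem deg_pos {N : ℕ} {k : Type} [Field k] {G : Tup N k} (hN : 1 ≤ N)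
    (hinj : Function.Injective (aeval G : Po N k →ₐ[k] Po N k)) : 1 ≤ deg G := by
  by_contra hlt
  have h0 : deg G = 0 := by omega
  have h1 : (G ⟨0, hN⟩).totalDegree = 0 :=
    Nat.le_zero.mp ((totalDegree_le_deg G ⟨0, hN⟩).trans h0.le)
  rw [totalDegree_eq_zero_iff_eq_C] at h1
  have h2 : aeval G (X ⟨0, hN⟩ : Po N k) = aeval G (C (coeff 0 (G ⟨0, hN⟩)) : Po N k) := by
    rw [aeval_X, aeval_C, algebraMap_eq, ← h1]
  have h3 := congrArg totalDegree (hinj h2)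
  rw [totalDegree_X, totalDegree_C] at h3
  exact one_ne_zero h3

theorem cov_zero {f : Tup 0 Qb} {e : ℕ} (h : Cov f e) : e ≤ 1 := by
  obtain ⟨c, hc0, hc⟩ := h
  obtain ⟨y, hy⟩ := Pool.Agent.H8.HZ.exists_eval_ne hc0
  obtain ⟨S, hS, -⟩ := hc y hy
  rw [← hS]
  exact Finset.card_le_one_of_subsingleton S

end Pool.Agent.H8.HIT
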