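import Pool.Agent.H8.HIT.Core

/-!
# Theorem B
-/

open MvPolynomial
open Pool.Agent.H12.ZD (pmap v O Res DenseOrbit NoInv)
open Pool.Agent.H18.HIT

namespace Pool.Agent.H8.HIT

section sigma

variable {N : ℕ} {k : Type} [Field k] {G : Tup N k} {z P P' : Fin N → k} {σ : k ≃+* k}

theorem van_sigma (hG : ∀ i, map (σ : k →+* k) (G i) = G i) (hz : ∀ i, σ (z i) = z i)
    {q : Po N k} (hq : q ∈ van G z) : map (σ.symm : k →+* k) q ∈ van G z := by
  intro n
  apply σ.injective
  rw [map_zero]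
  have h1 : σ (eval ((pmap G)^[n] z) (map (σ.symm : k →+* k) q)) =
      eval (fun i => (σ : k →+* k) ((pmap G)^[n] z i))
        (map (σ : k →+* k) (map (σ.symm : k →+* k) q)) :=
    (Pool.Agent.H8.HZ.eval_map_apply (σ : k →+* k) _ _).symm
  have h2 : map (σ : k →+* k) (map (σ.symm : k →+* k) q) = q := by
    rw [map_map]
    have : (σ : k →+* k).comp (σ.symm : k →+* k) = RingHom.id k := by
      ext x
      exact σ.apply_symm_apply x
    rw [this, map_id]
  have h3 : (fun i => (σ : k →+* k) ((pmap G)^[n] z i)) = (pmap G)^[n] z := by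
    have h4 := Pool.Agent.H12.ZD.pmap_iterate_map (σ : k →+* k) G z n
    have h5 : (fun i => map (σ : k →+* k) (G i)) = G := funext hG
    have h6 : (fun i => (σ : k →+* k) (z i)) = z := funext hz
    rw [h5, h6] at h4
    exact h4.symm
  rw [h1, h2, h3]
  exact hq n

theorem eval_sigma_van (hG : ∀ i, map (σ : k →+* k) (G i) = G i) (hz : ∀ i, σ (z i) = z i)
    (hP : ∀ i, σ (P i) = P' i) (hvan : ∀ q ∈ van G z, eval P q = 0) {q : Po N k}
    (hq : q ∈ van G z) : eval P' q = 0 := by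
  have h1 := hvan _ (van_sigma hG hz hq)
  have h2 := Pool.Agent.H8.HZ.eval_map_apply (σ : k →+* k) (map (σ.symm : k →+* k) q) P
  rw [h1, map_zero, map_map] at h2
  have h3 : (σ : k →+* k).comp (σ.symm : k →+* k) = RingHom.id k := by
    ext x
    exact σ.apply_symm_apply x
  rw [h3, map_id] at h2
  have h4 : (fun i => (σ : k →+* k) (P i)) = P' := funext hP
  rwa [h4] at h2

theorem eval_sigma_jac (hG : ∀ i, map (σ : k →+* k) (G i) = G i)
    (hP : ∀ i, σ (P i) = P' i) (h : eval P (jac G) ≠ 0) : eval P' (jac G) ≠ 0 := by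
  intro h0
  apply h
  apply σ.injective
  have h2 := Pool.Agent.H8.HZ.eval_map_apply (σ : k →+* k) (jac G) P
  have h3 : map (σ : k →+* k) (jac G) = jac G := by
    have h4 := Pool.Agent.H8.HZ.jac_map (σ : k →+* k) G
    have h5 : (fun i => map (σ : k →+* k) (G i)) = G := funext hG
    rw [h5] at h4
    exact h4.symm
  have h4 : (fun i => (σ : k →+* k) (P i)) = P' := funext hP
  rw [h3, h4, h0] at h2
  rw [map_zero]
  exact h2.symm

end sigma

/-- conjugation by an affine map preserves the absence of invariant functions -/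
theorem noInv_conj {N : ℕ} {k : Type} [Field k] [Infinite k] (F G : Tup N k) (a : Fin N → k)
    {t : k} (ht : t ≠ 0)
    (h : ∀ z : Fin N → k, pmap F (fun i => a i + t * z i) = fun i => a i + t * pmap G z i)
    (hF : NoInv F) : NoInv G := by
  set L : Tup N k := fun i => C (a i) + C t * X i with hL
  set Li : Tup N k := fun i => C (t⁻¹) * (X i - C (a i)) with hLi
  have h1 : comp Li L = fun i => X i := by
    funext i
    change aeval L (Li i) = X i
    rw [hLi, map_mul, map_sub, aeval_X, aeval_C, aeval_C, algebraMap_eq, hL,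
      add_sub_cancel_left, ← mul_assoc, ← C_mul, inv_mul_cancel₀ ht, C_1, one_mul]
  have h2 : comp L Li = fun i => X i := by
    funext i
    change aeval Li (L i) = X i
    rw [hL, map_add, map_mul, aeval_X, aeval_C, aeval_C, algebraMap_eq, hLi, ← mul_assoc,
      ← C_mul, mul_inv_cancel₀ ht, C_1, one_mul]
    ring
  have h3 : comp F L = comp L G := by
    funext i
    apply MvPolynomial.funext
    intro z
    have h4 : ∀ y : Fin N → k, pmap L y = fun i => a i + t * y i := by
      intro y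
      funext j
      simp [pmap, hL]
    have h5 := congrFun (pmap_comp F L z) i
    have h6 := congrFun (pmap_comp L G z) i
    rw [h4, h z] at h5
    rw [h4] at h6
    exact h5.trans h6.symm
  have h4 : comp Li F = comp G Li := by
    calc comp Li F = comp Li (comp F (comp L Li)) := by rw [h2, comp_X]
      _ = comp (comp Li L) (comp G Li) := by
          rw [← comp_assoc F L Li, h3, comp_assoc L G Li, ← comp_assoc Li L]
      _ = comp G Li := by rw [h1, X_comp]
  rintro ⟨p, q, hq, hpq, heq⟩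
  apply hF
  have hback : ∀ r : Po N k, aeval L (aeval Li r) = r := by
    intro r
    rw [← aeval_comp, h1]
    exact aeval_X_left_apply r
  have hpull : ∀ r : Po N k, aeval F (aeval Li r) = aeval Li (aeval G r) := by
    intro r
    rw [← aeval_comp, h4, aeval_comp]
  refine ⟨aeval Li p, aeval Li q, ?_, ?_, ?_⟩
  · intro h0
    apply hq
    rw [← hback q, h0, map_zero]
  · intro c hc
    apply hpq c
    have h5 := congrArg (aeval L) hc
    rw [hback, map_mul, hback, aeval_C, algebraMap_eq] at h5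
    exact h5
  · rw [hpull, hpull, ← map_mul, heq, map_mul]

theorem pf_B (hINC : T_INC) (hPRM : T_PRM) (hPEL : T_PEL) (hHIT : T_HIT) (hPRE : T_PRE)
    (hSTR : T_STR) (hHF2 : T_HF2) (hAVO : T_AVO) (hIGC : T_IGC) (hLYO : T_LYO) (hHYP : T_HYP)
    (hCAN : T_CAN) (hNIT : T_NIT) : T_B := by
  intro N f b e hN hcov hdeg hinv hb
  have he : 1 ≤ e := Nat.one_le_iff_ne_zero.mpr (by omega)
  obtain ⟨p, k, a, H, hp, hk, hcovG, hinj, hdegG, hconj, hav⟩ := setup f b e he hcov hb
  have hinvG : NoInv (flQ p H) := by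
    have h1 := hNIT N Qb f k (cov_pos_inj he hcov) hk hinv
    have ht : ((p : ℕ) : Qb) ^ 2 ≠ 0 := pow_ne_zero 2 (Nat.cast_ne_zero.mpr p.2.ne_zero)
    apply noInv_conj (it f k) (flQ p H) (fun i => (a i : Qb)) ht _ h1
    intro z
    rw [pmap_it]
    exact hconj z
  obtain ⟨c₁, hc₁, hint⟩ := hIGC N Qb (flQ p H) hinj
  have hB₀ : aeval (flQ p H) c₁ ≠ 0 := by
    intro h0
    exact hc₁ ((inj_iff _).mp hinj c₁ h0)
  obtain ⟨b₂, hb₂, hcan⟩ := hCAN N Qb (flQ p H) (aeval (flQ p H) c₁) hinj hinvG hB₀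
  obtain ⟨z, P, θ, hz, hP, hPvan, hgal, hstar⟩ := core hINC hPEL hHIT hPRE hSTR p hp H (e ^ k)
    (c₁ * b₂) (mul_ne_zero hc₁ hb₂) hinj hcovG
  rw [map_mul] at hz
  refine ⟨lam p a (cO z), fun n => hav n z, ?_⟩
  apply dense_of_conj f p k a H hconj
  by_contra hne
  by_cases hcase : ∀ W : Po N Qb, Irreducible W → ∃ c ∈ van (flQ p H) (cO z), ¬ W ∣ c
  · obtain ⟨S, hS, S', hS', hS0, hS0', hrel⟩ := hAVO N Qb _ hne hcase
    obtain ⟨B, hB⟩ := hHF2 N Qb (van (flQ p H) (cO z)) S S' hS hS' hS0 hS0' hrel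
    have hlt : deg (flQ p H) ^ (N - 2) < e ^ k := by
      calc deg (flQ p H) ^ (N - 2) ≤ (deg f ^ k) ^ (N - 2) := Nat.pow_le_pow_left hdegG _
        _ = (deg f ^ (N - 2)) ^ k := by rw [← pow_mul, ← pow_mul, Nat.mul_comm]
        _ < e ^ k := Nat.pow_lt_pow_left hdeg (by omega)
    exact pf_GRW N Qb (van (flQ p H) (cO z)) (flQ p H) θ (e ^ k) B (N - 2)
      (one_notMem_van _ _) (deg_pos (by omega) hinj) hlt (fun c hc => van_aeval hc) hstar hB
  · push Not at hcase
    obtain ⟨W, hW, hdvd⟩ := hcase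
    have hprime := hPRM N p H z hp
    obtain ⟨Y, hY, hYp⟩ := hprime.exists_mem_prime_of_ne_bot hne
    have hWI : W ∈ van (flQ p H) (cO z) := by
      have h1 : Associated W Y := hW.associated_of_dvd hYp.irreducible (hdvd Y hY)
      obtain ⟨u, hu⟩ := h1.symm
      rw [← hu]
      exact Ideal.mul_mem_right _ _ hY
    have hiff : ∀ c : Po N Qb, c ∈ van (flQ p H) (cO z) ↔ W ∣ c := by
      intro c
      refine ⟨hdvd c, ?_⟩
      rintro ⟨d, rfl⟩
      exact Ideal.mul_mem_right _ _ hWI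
    obtain ⟨Z, hZ⟩ := hdvd _ (van_aeval hWI)
    have hWz : eval (cO z) W = 0 := hWI 0
    have hall : ∀ Y : Po N Qb, Irreducible Y → Y ∣ Z → Y ∣ aeval (flQ p H) c₁ := by
      intro Y hY hYZ
      by_contra hnd
      obtain ⟨P', hP'Y, hP'⟩ := hLYO N Qb (flQ p H) c₁ W Y (cO z) hinj hint
        (left_ne_zero_of_mul hz) hW hWz hY (hZ ▸ hYZ.mul_left W) hnd
      obtain ⟨σ, hσ1, hσ2, hσ3⟩ := hgal P' hP'
      have hjac := eval_sigma_jac hσ1 hσ3 (jac_fl_ne p H P)
      have hW' := eval_sigma_van hσ1 hσ2 hσ3 hPvan hWI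
      apply hHYP N Qb (flQ p H) W Z (cO z)
        (fun n => by rw [flQ_iterate]; exact jac_fl_ne p H _) hW hiff hZ P' hP' hjac hW'
      obtain ⟨d, hd⟩ := hYZ
      rw [hd, map_mul, hP'Y, zero_mul]
    obtain ⟨d, hd⟩ := hcan W Z hW hZ hall
    apply right_ne_zero_of_mul hz
    rw [hd, map_mul, hWz, zero_mul]

end Pool.Agent.H8.HIT
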