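import Pool.Agent.H18.HIT.Targets
import Pool.Agent.H8.HZ.CNT

/-!
# Rows FBA DIA INJ FRX GOD CHN JAC ELM CNT TAY FLW
-/

open MvPolynomial
open Pool.Agent.H12.ZD (pmap v O Res DenseOrbit NoInv)
open Pool.Agent.H18.HIT

namespace Pool.Agent.H8.HIT

theorem jac_eq {N : ℕ} {k : Type} [CommRing k] (f : Tup N k) :
    Pool.Agent.H8.HZ.jac f = Pool.Agent.H18.HIT.jac f := rfl

theorem itr_eq {N : ℕ} {k : Type} [CommRing k] (f : Tup N k) (n : ℕ) :
    Pool.Agent.H8.HZ.itr f n = it f n := by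
  induction n with
  | zero => rfl
  | succ n ih =>
    rw [it_succ, ← ih]
    rfl

theorem inj_iff {N : ℕ} {k : Type} [CommRing k] (f : Tup N k) :
    Function.Injective (aeval f : Po N k →ₐ[k] Po N k) ↔
      ∀ h : MvPolynomial (Fin N) k, aeval f h = 0 → h = 0 :=
  injective_iff_map_eq_zero (aeval f : Po N k →ₐ[k] Po N k)

theorem cov_iff {N : ℕ} {k : Type} [Field k] (f : Tup N k) (e : ℕ) :
    Pool.Agent.H8.HZ.Cov f e ↔ Pool.Agent.H18.HIT.Cov f e := by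
  constructor
  · rintro ⟨c, hc0, hc⟩
    refine ⟨c, hc0, fun y hy => ?_⟩
    obtain ⟨S, hS, hS'⟩ := hc y hy
    obtain ⟨T, hT, hTc⟩ := Finset.exists_subset_card_eq hS
    exact ⟨T, hTc, fun x hx => hS' x (hT hx)⟩
  · rintro ⟨c, hc0, hc⟩
    refine ⟨c, hc0, fun y hy => ?_⟩
    obtain ⟨S, hS, hS'⟩ := hc y hy
    exact ⟨S, hS.ge, hS'⟩

theorem pf_FBA : T_FBA := by
  intro N κ _ f Q b hf hb hI
  exact Pool.Agent.H8.HZ.eq_zero_of_mem
    (fun i => Pool.Agent.H8.HZ.Lo.of_totalDegree (lt_of_le_of_lt (totalDegree_le_deg f i) hf))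
    (Pool.Agent.H8.HZ.Lo.of_totalDegree hb) hI

theorem pf_DIA : T_DIA := by
  intro N κ _ f Q hf
  have hQ : ∀ i, Pool.Agent.H8.HZ.Lo Q (f i) := fun i =>
    Pool.Agent.H8.HZ.Lo.of_totalDegree (lt_of_le_of_lt (totalDegree_le_deg f i) hf)
  have hspan := Pool.Agent.H8.HZ.span_quotient (κ := κ) hQ (Nat.zero_lt_of_lt hf)
  refine ⟨⟨?_⟩, ?_⟩
  · rw [← hspan]
    exact Submodule.fg_span (Set.finite_range _)
  · have h1 := finrank_range_le_card (R := κ) (fun α : Fin N → Fin Q =>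
      (Ideal.Quotient.mkₐ κ (Ideal.span (Set.range fun i => X i ^ Q - f i)))
        (monomial (Finsupp.equivFunOnFinite.symm fun i => (α i : ℕ)) 1))
    rw [Set.finrank, hspan, finrank_top] at h1
    simpa using h1

theorem pf_INJ : T_INJ := by
  intro N κ _ _ p _ _ f hf
  rw [inj_iff]
  exact fun h hh => Pool.Agent.H8.HZ.inj_char_p p f hf h hh

theorem pf_FRX : T_FRX := by
  intro N κ _ _ p t _ _ f b _ hf hb h1 h2
  exact Pool.Agent.H8.HZ.exists_frob_point p f b hf hb (totalDegree_le_deg f) h1 h2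

theorem pf_GOD : T_GOD := by
  intro N f b M hf hb
  obtain ⟨M', hM'⟩ := Pool.Agent.H8.HZ.exists_good f hf b hb
  obtain ⟨q, hq1, hq2⟩ := Nat.exists_infinite_primes (max M M' + 1)
  have h1 : M < q := lt_of_le_of_lt (le_max_left M M') hq1
  have h2 : M' < q := lt_of_le_of_lt (le_max_right M M') hq1
  obtain ⟨f₀, b₀, a, hf₀, hb₀, h⟩ := hM' ⟨q, hq2⟩ h2
  exact ⟨⟨q, hq2⟩, f₀, b₀, a, h1, fun i => congrFun hf₀ i, hb₀, h⟩

theorem pf_CHN : T_CHN := by
  intro N R _ f g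
  have h1 : ∀ i j, pderiv j (comp f g i) = ∑ l, aeval g (pderiv l (f i)) * pderiv j (g l) :=
    fun i j => Pool.Agent.H8.HZ.pderiv_aeval g (f i) j
  refine ⟨h1, ?_⟩
  have h2 : (Matrix.of fun i j => pderiv j (comp f g i)) =
      (Matrix.of fun i j => aeval g (pderiv j (f i))) * Matrix.of fun i j => pderiv j (g i) := by
    ext1 i j
    rw [Matrix.mul_apply]
    exact h1 i j
  have h3 : aeval g (Matrix.det (Matrix.of fun i j => pderiv j (f i))) =
      Matrix.det (Matrix.of fun i j => aeval g (pderiv j (f i))) :=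
    AlgHom.map_det (aeval g : Po N R →ₐ[R] Po N R) _
  rw [jac, jac, jac, h2, Matrix.det_mul, h3]

theorem pf_JAC : T_JAC := by
  intro N k _ _ f hf
  exact Pool.Agent.H8.HZ.jac_ne_zero_of_inj ((inj_iff f).mp hf)

theorem pf_ELM : T_ELM := by
  intro N k _ f hf c hc
  exact Pool.Agent.H8.HZ.exists_dvd_aeval ((inj_iff f).mp hf) hc

theorem pf_CNT : T_CNT := by
  intro N k _ _ f e n hf hcov
  rcases Nat.eq_zero_or_pos e with h0 | h0
  · subst h0
    rcases Nat.eq_zero_or_pos n with h1 | h1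
    · subst h1
      refine ⟨1, one_ne_zero, fun y _ => ⟨{y}, by simp, fun x hx => ?_⟩⟩
      rw [Finset.mem_singleton] at hx
      rw [hx, it_zero]
      exact pmap_X y
    · refine ⟨1, one_ne_zero, fun y _ => ⟨∅, ?_, fun x hx => ?_⟩⟩
      · rw [Finset.card_empty, zero_pow (by omega)]
      · exact absurd hx (Finset.notMem_empty x)
  · rw [← cov_iff, ← itr_eq]
    exact Pool.Agent.H8.HZ.Cov.itr ((cov_iff f e).mpr hcov) h0 n

theorem pf_TAY : T_TAY := by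
  intro N R _ q a t
  exact Pool.Agent.H8.HZ.taylor a t q

theorem pf_FLW : T_FLW := by
  intro N p f₀ a hj
  obtain ⟨i₀, k, hk, hrec, hmat⟩ := Pool.Agent.H8.HZ.exists_recurrent p f₀ a hj
  obtain ⟨H, hH⟩ := Pool.Agent.H8.HZ.flow_identity (Pool.Agent.H8.HZ.itr f₀ k)
    ((pmap f₀)^[i₀] a) ((p : ℕ) : O p)
    (fun i => by
      obtain ⟨c, hc⟩ := hrec i
      refine ⟨c, ?_⟩
      rw [← hc, ← Pool.Agent.H8.HZ.pmap_itr f₀ k]
      rfl) hmat
  refine ⟨k, i₀, H, hk, fun i => ?_⟩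
  rw [← itr_eq]
  exact hH i

end Pool.Agent.H8.HIT
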