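import Pool.Agent.H8.HIT.Core

/-!
# Theorem A
-/

open MvPolynomial
open Pool.Agent.H12.ZD (pmap v O Res DenseOrbit NoInv)
open Pool.Agent.H18.HIT

namespace Pool.Agent.H8.HIT

theorem pf_A (hINC : T_INC) (hPEL : T_PEL) (hHIT : T_HIT) (hPRE : T_PRE) (hSTR : T_STR) :
    T_A := by
  intro N f b e hcov hdeg hb
  have he : 1 ≤ e := Nat.one_le_iff_ne_zero.mpr (by omega)
  rcases Nat.eq_zero_or_pos N with hN | hN
  · subst hN
    have h1 := cov_zero hcov
    have h2 : deg f ^ (0 - 1) = 1 := pow_zero _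
    omega
  obtain ⟨p, k, a, H, hp, hk, hcovG, hinj, hdegG, hconj, hav⟩ := setup f b e he hcov hb
  obtain ⟨z, P, θ, -, -, -, -, hstar⟩ := core hINC hPEL hHIT hPRE hSTR p hp H (e ^ k) 1
    one_ne_zero hinj hcovG
  refine ⟨lam p a (cO z), fun n => hav n z, ?_⟩
  apply dense_of_conj f p k a H hconj
  by_contra hne
  obtain ⟨S, hS, hS0⟩ := Submodule.exists_mem_ne_zero_of_ne_bot hne
  obtain ⟨B, hB⟩ := pf_HF1 N Qb (van (flQ p H) (cO z)) S hS hS0
  have hlt : deg (flQ p H) ^ (N - 1) < e ^ k := by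
    calc deg (flQ p H) ^ (N - 1) ≤ (deg f ^ k) ^ (N - 1) := Nat.pow_le_pow_left hdegG _
      _ = (deg f ^ (N - 1)) ^ k := by rw [← pow_mul, ← pow_mul, Nat.mul_comm]
      _ < e ^ k := Nat.pow_lt_pow_left hdeg (by omega)
  exact pf_GRW N Qb (van (flQ p H) (cO z)) (flQ p H) θ (e ^ k) B (N - 1)
    (one_notMem_van _ _) (deg_pos hN hinj) hlt (fun c hc => van_aeval hc) hstar hB

end Pool.Agent.H8.HIT
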